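import Mathlib

namespace Pool.Agent.Lib.MP_24cacf_an

open Set Real

abbrev E2 := EuclideanSpace ℝ (Fin 2)

/-- unit vector of angle `θ` -/
noncomputable def uvec (θ : ℝ) : E2 := !₂[Real.cos θ, Real.sin θ]

/-- cross product -/
def cross (a b : E2) : ℝ := a 0 * b 1 - a 1 * b 0

lemma inner_eq (a b : E2) : inner ℝ a b = a 0 * b 0 + a 1 * b 1 := by
  simp [PiLp.inner_apply, Fin.sum_univ_two, mul_comm]

lemma norm_sq_eq (a : E2) : ‖a‖ ^ 2 = a 0 ^ 2 + a 1 ^ 2 := by
  rw [← real_inner_self_eq_norm_sq, inner_eq]; ring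

lemma lagrange (a b : E2) : (inner ℝ a b : ℝ) ^ 2 + cross a b ^ 2 = ‖a‖ ^ 2 * ‖b‖ ^ 2 := by
  rw [norm_sq_eq, norm_sq_eq, inner_eq, cross]; ring

lemma abs_cross_le (a b : E2) : |cross a b| ≤ ‖a‖ * ‖b‖ := by
  have h := lagrange a b
  have h1 : cross a b ^ 2 ≤ (‖a‖ * ‖b‖) ^ 2 := by
    rw [mul_pow, ← h]; nlinarith [sq_nonneg (inner ℝ a b : ℝ)]
  exact abs_le_of_sq_le_sq h1 (by positivity)

lemma norm_mul_le (a b : E2) : ‖a‖ * ‖b‖ ≤ |(inner ℝ a b : ℝ)| + |cross a b| := by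
  have h := lagrange a b
  have h1 : (‖a‖ * ‖b‖) ^ 2 ≤ (|(inner ℝ a b : ℝ)| + |cross a b|) ^ 2 := by
    rw [mul_pow, ← h]
    nlinarith [abs_nonneg (inner ℝ a b : ℝ), abs_nonneg (cross a b), sq_abs (inner ℝ a b : ℝ),
      sq_abs (cross a b), mul_nonneg (abs_nonneg (inner ℝ a b : ℝ)) (abs_nonneg (cross a b))]
  exact le_of_sq_le_sq h1 (by positivity)

lemma exists_proj {K : Set E2} (hK : IsCompact K) (hc : Convex ℝ K) (hne : K.Nonempty) :
    ∃ p : E2 → E2, ∀ z, p z ∈ K ∧ ∀ w ∈ K, (inner ℝ (z - p z) (w - p z) : ℝ) ≤ 0 := by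
  have : ∀ z : E2, ∃ v ∈ K, ∀ w ∈ K, (inner ℝ (z - v) (w - v) : ℝ) ≤ 0 := by
    intro z
    obtain ⟨v, hv, h⟩ := exists_norm_eq_iInf_of_complete_convex hne hK.isComplete hc z
    exact ⟨v, hv, (norm_eq_iInf_iff_real_inner_le_zero hc hv).1 h⟩
  choose p hp using this
  exact ⟨p, fun z => ⟨(hp z).1, (hp z).2⟩⟩

lemma proj_firm {K : Set E2} {p : E2 → E2}
    (hp : ∀ z, p z ∈ K ∧ ∀ w ∈ K, (inner ℝ (z - p z) (w - p z) : ℝ) ≤ 0) (z z' : E2) :
    ‖p z - p z'‖ ^ 2 ≤ inner ℝ (z - z') (p z - p z') := by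
  have h1 := (hp z).2 (p z') (hp z').1
  have h2 := (hp z').2 (p z) (hp z).1
  have e1 : (inner ℝ (z - z') (p z - p z') : ℝ) - ‖p z - p z'‖ ^ 2
      = - (inner ℝ (z - p z) (p z' - p z) + inner ℝ (z' - p z') (p z - p z')) := by
    rw [← real_inner_self_eq_norm_sq]
    simp only [inner_sub_left, inner_sub_right]
    ring
  linarith

lemma proj_lip {K : Set E2} {p : E2 → E2}
    (hp : ∀ z, p z ∈ K ∧ ∀ w ∈ K, (inner ℝ (z - p z) (w - p z) : ℝ) ≤ 0) (z z' : E2) :
    ‖p z - p z'‖ ≤ ‖z - z'‖ := by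
  have h1 := proj_firm hp z z'
  have h2 := real_inner_le_norm (z - z') (p z - p z')
  by_contra h
  push Not at h
  have : 0 < ‖p z - p z'‖ := lt_of_le_of_lt (norm_nonneg _) h
  nlinarith

lemma proj_lip' {K : Set E2} {p : E2 → E2}
    (hp : ∀ z, p z ∈ K ∧ ∀ w ∈ K, (inner ℝ (z - p z) (w - p z) : ℝ) ≤ 0) (z z' : E2) :
    ‖(z - p z) - (z' - p z')‖ ≤ ‖z - z'‖ := by
  have h1 := proj_firm hp z z'
  have e : (z - p z) - (z' - p z') = (z - z') - (p z - p z') := by abel
  rw [e]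
  have h3 : ‖(z - z') - (p z - p z')‖ ^ 2 ≤ ‖z - z'‖ ^ 2 := by
    rw [norm_sub_sq_real]
    nlinarith [sq_nonneg ‖p z - p z'‖]
  exact le_of_sq_le_sq h3 (norm_nonneg _)

lemma uvec_norm (θ : ℝ) : ‖uvec θ‖ = 1 := by
  have : ‖uvec θ‖ ^ 2 = 1 := by
    rw [norm_sq_eq]; simp [uvec]
  nlinarith [norm_nonneg (uvec θ), sq_nonneg (‖uvec θ‖ - 1)]

lemma uvec_sub_norm (a b : ℝ) : ‖uvec a - uvec b‖ ≤ |a - b| := by
  have h : ‖uvec a - uvec b‖ ^ 2 ≤ |a - b| ^ 2 := by
    rw [norm_sq_eq, sq_abs]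
    simp only [uvec, PiLp.sub_apply]
    simp
    have h1 := Real.one_sub_sq_div_two_le_cos (x := a - b)
    rw [Real.cos_sub] at h1
    nlinarith [Real.sin_sq_add_cos_sq a, Real.sin_sq_add_cos_sq b]
  exact le_of_sq_le_sq h (abs_nonneg _)

lemma sign_core {n1 n2 m1 m2 d1 d2 : ℝ}
    (H1 : n1 * d1 + n2 * d2 ≤ 0) (H2 : 0 ≤ m1 * d1 + m2 * d2) (H3 : 0 < n1 * m1 + n2 * m2)
    (H4 : 0 < (n1 * d2 - n2 * d1) + (n1 * m2 - n2 * m1)) : 0 ≤ n1 * d2 - n2 * d1 := by
  by_contra h
  push Not at h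
  have key : (n1 * m2 - n2 * m1) * (n1 * d2 - n2 * d1)
      = (n1 ^ 2 + n2 ^ 2) * (m1 * d1 + m2 * d2) - (n1 * m1 + n2 * m2) * (n1 * d1 + n2 * d2) := by
    ring
  have h1 : 0 ≤ (n1 * m2 - n2 * m1) * (n1 * d2 - n2 * d1) := by
    rw [key]
    have := mul_nonneg (by positivity : 0 ≤ n1 ^ 2 + n2 ^ 2) H2
    have := mul_nonneg H3.le (neg_nonneg.2 H1)
    linarith
  have h2 : n1 * m2 - n2 * m1 ≤ 0 := by
    by_contra h3
    push Not at h3
    nlinarith
  linarith

/-- a segment from a point of a closed set to a point outside meets the frontier -/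
lemma exists_frontier {K : Set E2} (hK : IsClosed K) {a b : E2} (ha : a ∈ K) (hb : b ∉ K) :
    ∃ t ∈ Icc (0 : ℝ) 1, a + t • (b - a) ∈ frontier K := by
  by_contra h
  push Not at h
  have hcont : Continuous (fun t : ℝ => a + t • (b - a)) := by fun_prop
  have hU : IsOpen {t : ℝ | a + t • (b - a) ∈ interior K} := isOpen_interior.preimage hcont
  have hV : IsOpen {t : ℝ | a + t • (b - a) ∈ Kᶜ} := hK.isOpen_compl.preimage hcont
  have hcov : Icc (0 : ℝ) 1 ⊆ {t : ℝ | a + t • (b - a) ∈ interior K}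
      ∪ {t : ℝ | a + t • (b - a) ∈ Kᶜ} := by
    intro t ht
    by_cases htK : a + t • (b - a) ∈ K
    · left
      by_contra hint
      exact h t ht (by rw [hK.frontier_eq]; exact ⟨htK, hint⟩)
    · right; exact htK
  have ha' : a ∈ interior K := by
    by_contra hint
    have := h 0 (by simp)
    apply this
    simp only [zero_smul, add_zero]
    rw [hK.frontier_eq]; exact ⟨ha, hint⟩
  obtain ⟨t, _, h1, h2⟩ := isPreconnected_Icc _ _ hU hV hcov ⟨0, by simp, by simpa using ha'⟩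
    ⟨1, by simp, by simpa using hb⟩
  exact h2 (interior_subset h1)

/-- the data of a good parametrization of the boundary -/
structure Param (K : Set E2) where
  Φ : ℝ → E2
  N : ℝ → E2
  mem : ∀ s, Φ s ∈ K
  supp : ∀ s, ∀ y ∈ K, (inner ℝ (N s) (y - Φ s) : ℝ) ≤ 0
  lipΦ : ∀ s t, ‖Φ s - Φ t‖ ≤ 16 * |s - t|
  lipN : ∀ s t, ‖N s - N t‖ ≤ 16 * |s - t|
  one_le : ∀ s, 1 ≤ ‖N s‖
  le_three : ∀ s, ‖N s‖ ≤ 3
  sign_pos : ∀ s t, s ≤ t → 32 * (t - s) ≤ 1 → 0 ≤ cross (N s) (Φ t - Φ s)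
  sign_neg : ∀ s t, t ≤ s → 32 * (s - t) ≤ 1 → cross (N s) (Φ t - Φ s) ≤ 0
  surj : ∀ q ∈ frontier K, ∃ s ∈ Icc (-(1 / 2) : ℝ) (1 / 2), Φ s = q

lemma exists_angle (v : E2) (hv : ‖v‖ = 2) : ∃ θ ∈ Icc (-π) π, v = (2 : ℝ) • uvec θ := by
  set z : ℂ := ⟨v 0, v 1⟩ with hz
  have hn : ‖z‖ = 2 := by
    have h1 : ‖z‖ ^ 2 = 4 := by
      rw [← Complex.normSq_eq_norm_sq, Complex.normSq_apply]
      have := norm_sq_eq v
      rw [hv] at this
      simp only [hz]
      nlinarith
    nlinarith [norm_nonneg z]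
  have hz0 : z ≠ 0 := by
    intro h; rw [h, norm_zero] at hn; norm_num at hn
  refine ⟨Complex.arg z, ⟨(Complex.neg_pi_lt_arg z).le, Complex.arg_le_pi z⟩, ?_⟩
  ext i
  fin_cases i
  · simp [uvec, Complex.cos_arg hz0, hn]
    simp [hz]
    ring
  · simp [uvec, Complex.sin_arg, hn]
    simp [hz]
    ring

theorem exists_param {K : Set E2} (hK : IsCompact K) (hc : Convex ℝ K) (hint : (interior K).Nonempty)
    (x₀ : E2) (hx : ∀ y ∈ K, ‖y - x₀‖ ≤ 1) : Nonempty (Param K) := by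
  obtain ⟨p, hp⟩ := exists_proj hK hc (hint.mono interior_subset)
  set z : ℝ → E2 := fun s => x₀ + (2 : ℝ) • uvec (2 * π * s) with hz
  have hzz : ∀ s t, ‖z s - z t‖ ≤ 16 * |s - t| := by
    intro s t
    have : z s - z t = (2 : ℝ) • (uvec (2 * π * s) - uvec (2 * π * t)) := by
      simp only [hz]; rw [smul_sub]; abel
    rw [this, norm_smul]
    have h1 := uvec_sub_norm (2 * π * s) (2 * π * t)
    rw [← mul_sub, abs_mul, abs_of_pos (by positivity : 0 < 2 * π)] at h1
    have h2 := Real.pi_lt_four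
    have h3 := abs_nonneg (s - t)
    rw [Real.norm_of_nonneg (by norm_num : (0 : ℝ) ≤ 2)]
    nlinarith
  have hzn : ∀ s, ‖z s - x₀‖ = 2 := by
    intro s
    simp only [hz, add_sub_cancel_left]
    rw [norm_smul, uvec_norm]; norm_num
  have hN1 : ∀ s, 1 ≤ ‖z s - p (z s)‖ := by
    intro s
    have h1 := hx _ (hp (z s)).1
    have h2 := hzn s
    have h3 : ‖z s - x₀‖ ≤ ‖z s - p (z s)‖ + ‖p (z s) - x₀‖ := norm_sub_le_norm_sub_add_norm_sub _ _ _
    linarith
  have hN3 : ∀ s, ‖z s - p (z s)‖ ≤ 3 := by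
    intro s
    have h1 := hx _ (hp (z s)).1
    have h2 := hzn s
    have h3 : ‖z s - p (z s)‖ ≤ ‖z s - x₀‖ + ‖x₀ - p (z s)‖ := norm_sub_le_norm_sub_add_norm_sub _ _ _
    rw [norm_sub_rev x₀] at h3
    linarith
  have hlipN : ∀ s t, ‖(z s - p (z s)) - (z t - p (z t))‖ ≤ 16 * |s - t| :=
    fun s t => (proj_lip' hp _ _).trans (hzz s t)
  have hH3 : ∀ s t, 32 * |s - t| ≤ 1 → 0 < (inner ℝ (z s - p (z s)) (z t - p (z t)) : ℝ) := by
    intro s t hst
    set a := z s - p (z s)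
    set b := z t - p (z t)
    have h1 : ‖a - b‖ ≤ 1 / 2 := by
      have := hlipN s t
      linarith
    have h2 : (inner ℝ a b : ℝ) = ‖a‖ ^ 2 - inner ℝ a (a - b) := by
      have := inner_sub_right (𝕜 := ℝ) a a b
      rw [real_inner_self_eq_norm_sq] at this
      linarith
    have h3 := real_inner_le_norm a (a - b)
    have h4 : 1 ≤ ‖a‖ := hN1 s
    rw [h2]
    nlinarith [norm_nonneg a, norm_nonneg (a - b)]
  -- orientation
  have hcr : ∀ s t, cross (z s - p (z s)) (z t - z s)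
      = 4 * Real.sin (2 * π * (t - s)) - 2 * cross (p (z s) - x₀) (uvec (2 * π * t) - uvec (2 * π * s)) := by
    intro s t
    have e : 2 * π * (t - s) = 2 * π * t - 2 * π * s := by ring
    rw [e, Real.sin_sub]
    simp only [hz, cross, uvec, PiLp.sub_apply, PiLp.add_apply, PiLp.smul_apply]
    simp
    ring
  have hcr2 : ∀ s t, |cross (p (z s) - x₀) (uvec (2 * π * t) - uvec (2 * π * s))| ≤ 2 * π * |t - s| := by
    intro s t
    refine (abs_cross_le _ _).trans ?_
    have h1 := hx _ (hp (z s)).1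
    have h2 := uvec_sub_norm (2 * π * t) (2 * π * s)
    rw [← mul_sub, abs_mul, abs_of_pos (by positivity : 0 < 2 * π)] at h2
    calc _ ≤ 1 * (2 * π * |t - s|) := mul_le_mul h1 h2 (norm_nonneg _) (by norm_num)
      _ = _ := by ring
  have hsin : ∀ x : ℝ, 0 ≤ x → x ≤ 1 → x / 2 ≤ Real.sin x ∧ (0 < x → x / 2 < Real.sin x) := by
    intro x hx0 hx1
    have h1 := Real.mul_le_sin hx0 (by linarith [Real.pi_gt_three])
    have h2 : 1 / 2 < 2 / π := by
      rw [div_lt_div_iff₀ (by norm_num) Real.pi_pos]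
      linarith [Real.pi_lt_four]
    constructor
    · nlinarith
    · intro h0; nlinarith
  refine ⟨⟨fun s => p (z s), fun s => z s - p (z s), fun s => (hp _).1, fun s y hy => (hp _).2 y hy,
    fun s t => (proj_lip hp _ _).trans (hzz s t), hlipN, hN1, hN3, ?_, ?_, ?_⟩⟩
  · intro s t hst hle
    rcases eq_or_lt_of_le hst with rfl | hlt
    · simp [cross]
    have hpi := Real.pi_lt_four
    have hpi0 := Real.pi_pos
    have hx0 : 0 < 2 * π * (t - s) := by have : 0 < t - s := by linarith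
                                         positivity
    have hx1 : 2 * π * (t - s) ≤ 1 := by nlinarith
    have h1 := (hsin _ hx0.le hx1).2 hx0
    have h2 := hcr s t
    have h3 := hcr2 s t
    rw [abs_of_pos (by linarith : 0 < t - s)] at h3
    have h3' := (abs_le.1 h3).2
    have h4 : 0 < cross (z s - p (z s)) (z t - z s) := by rw [h2]; linarith
    have H1 := (hp (z s)).2 (p (z t)) (hp _).1
    have H2 := (hp (z t)).2 (p (z s)) (hp _).1
    have H3 := hH3 s t (by rw [abs_sub_comm, abs_of_pos (by linarith : 0 < t - s)]; exact hle)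
    rw [inner_eq] at H1 H2 H3
    simp only [cross, PiLp.sub_apply] at *
    apply sign_core (m1 := z t 0 - p (z t) 0) (m2 := z t 1 - p (z t) 1) H1 _ H3
    · linarith
    · linarith
  · intro s t hst hle
    rcases eq_or_lt_of_le hst with rfl | hlt
    · simp [cross]
    have hpi := Real.pi_lt_four
    have hpi0 := Real.pi_pos
    have hx0 : 0 < 2 * π * (s - t) := by have : 0 < s - t := by linarith
                                         positivity
    have hx1 : 2 * π * (s - t) ≤ 1 := by nlinarith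
    have h1 := (hsin _ hx0.le hx1).2 hx0
    have h2 := hcr s t
    have e : 2 * π * (t - s) = - (2 * π * (s - t)) := by ring
    rw [e, Real.sin_neg] at h2
    have h3 := hcr2 s t
    rw [abs_sub_comm t s, abs_of_pos (by linarith : 0 < s - t)] at h3
    have h3' := (abs_le.1 h3).1
    have h4 : cross (z s - p (z s)) (z t - z s) < 0 := by rw [h2]; linarith
    have H1 := (hp (z s)).2 (p (z t)) (hp _).1
    have H2 := (hp (z t)).2 (p (z s)) (hp _).1
    have H3 := hH3 s t (by rw [abs_of_pos (by linarith : 0 < s - t)]; exact hle)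
    rw [inner_eq] at H1 H2 H3
    simp only [cross, PiLp.sub_apply] at *
    have := sign_core (n1 := z s 0 - p (z s) 0) (n2 := -(z s 1 - p (z s) 1))
      (m1 := z t 0 - p (z t) 0) (m2 := -(z t 1 - p (z t) 1))
      (d1 := p (z t) 0 - p (z s) 0) (d2 := -(p (z t) 1 - p (z s) 1)) (by linarith) (by linarith)
      (by linarith) (by linarith)
    linarith
  · intro q hq
    have hqK : q ∈ K := hK.isClosed.frontier_subset hq
    have hqi : q ∉ interior K := by
      rw [hK.isClosed.frontier_eq] at hq; exact hq.2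
    obtain ⟨f, hf⟩ := geometric_hahn_banach_open_point hc.interior isOpen_interior hqi
    -- representer
    set ν : E2 := (InnerProductSpace.toDual ℝ E2).symm f with hν
    have hfν : ∀ y, f y = inner ℝ ν y := by
      intro y; rw [hν, InnerProductSpace.toDual_symm_apply]
    have hfK : ∀ y ∈ K, (inner ℝ ν (y - q) : ℝ) ≤ 0 := by
      intro y hy
      have hcl : y ∈ closure (interior K) := by
        rw [hc.closure_interior_eq_closure_of_nonempty_interior hint]
        exact subset_closure hy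
      have : closure (interior K) ⊆ {y | f y ≤ f q} := by
        apply closure_minimal
        · intro y hy; exact (hf y hy).le
        · exact isClosed_le f.continuous continuous_const
      have h1 := this hcl
      simp only [mem_ofPred_eq, hfν] at h1
      rw [inner_sub_right]; linarith
    have hν0 : ν ≠ 0 := by
      intro h0
      obtain ⟨y, hy⟩ := hint
      have := hf y hy
      rw [hfν, hfν, h0] at this
      simp at this
    have hνpos : 0 < ‖ν‖ := norm_pos_iff.2 hν0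
    -- IVT
    have hcont : ContinuousOn (fun r : ℝ => ‖q + r • ν - x₀‖) (Icc 0 (3 / ‖ν‖)) := by
      apply Continuous.continuousOn; fun_prop
    have h0 : ‖q + (0 : ℝ) • ν - x₀‖ ≤ 2 := by
      simp only [zero_smul, add_zero]; linarith [hx q hqK]
    have h3 : 2 ≤ ‖q + (3 / ‖ν‖) • ν - x₀‖ := by
      have e1 : ‖(3 / ‖ν‖) • ν‖ = 3 := by
        rw [norm_smul, Real.norm_of_nonneg (by positivity)]; field_simp
      have e2 : (3 / ‖ν‖) • ν = (q + (3 / ‖ν‖) • ν - x₀) - (q - x₀) := by abel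
      have e3 := norm_sub_le (q + (3 / ‖ν‖) • ν - x₀) (q - x₀)
      rw [← e2, e1] at e3
      linarith [hx q hqK]
    obtain ⟨r, hr, hr2⟩ := intermediate_value_Icc (by positivity) hcont ⟨h0, h3⟩
    obtain ⟨θ, hθ, hθ2⟩ := exists_angle _ hr2
    refine ⟨θ / (2 * π), ⟨?_, ?_⟩, ?_⟩
    · rw [le_div_iff₀ (by positivity)]; linarith [hθ.1]
    · rw [div_le_iff₀ (by positivity)]; linarith [hθ.2]
    · have hzθ : z (θ / (2 * π)) = q + r • ν := by
        simp only [hz]
        rw [mul_div_cancel₀ _ (by positivity : 2 * π ≠ 0), ← hθ2]; abel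
      show p (z (θ / (2 * π))) = q
      rw [hzθ]
      have h1 := (hp (q + r • ν)).2 q hqK
      have h2 := hfK _ (hp (q + r • ν)).1
      have h5 : ‖q - p (q + r • ν)‖ ^ 2 ≤ 0 := by
        rw [← real_inner_self_eq_norm_sq]
        have e : q + r • ν - p (q + r • ν) = (q - p (q + r • ν)) + r • ν := by abel
        rw [e, inner_add_left, inner_smul_left] at h1
        have e' : p (q + r • ν) - q = -(q - p (q + r • ν)) := by abel
        rw [e', inner_neg_right] at h2
        simp at h1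
        have := mul_nonneg hr.1 (by linarith : 0 ≤ (inner ℝ ν (q - p (q + r • ν)) : ℝ))
        rw [real_inner_self_eq_norm_sq] at *
        linarith
      have h6 : ‖q - p (q + r • ν)‖ = 0 := by
        nlinarith [norm_nonneg (q - p (q + r • ν))]
      rw [norm_eq_zero, sub_eq_zero] at h6
      exact h6.symm

end Pool.Agent.Lib.MP_24cacf_an
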