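import Mathlib

namespace Pool.Agent.Lib.MP_24cacf_an

open Finset Real

/-- nodes on the circle -/
noncomputable def xnode (N : ℕ) (j : ℕ) : ℝ := 2 * π * j / N

lemma sum_cos_eq_zero (N : ℕ) (m : ℤ) (hm : m ≠ 0) (hmN : |m| < N) (θ : ℝ) :
    ∑ j ∈ range N, Real.cos (m * (θ - xnode N j)) = 0 := by
  have hN : (N : ℝ) ≠ 0 := by
    rcases Nat.eq_zero_or_pos N with h | h
    · subst h
      have := abs_nonneg m
      simp at hmN
      omega
    · positivity
  set ζ : ℂ := Complex.exp (-(2 * π * m / N) * Complex.I) with hζ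
  have hNc : (N : ℂ) ≠ 0 := by exact_mod_cast hN
  have hζ1 : ζ ≠ 1 := by
    intro h
    rw [hζ, Complex.exp_eq_one_iff] at h
    obtain ⟨k, hk⟩ := h
    have hI := Complex.I_ne_zero
    have hpi : (π : ℂ) ≠ 0 := by exact_mod_cast Real.pi_ne_zero
    have h2 : (-(m : ℂ)) = k * N := by
      field_simp at hk
      linear_combination hk
    have h3 : -m = k * (N : ℤ) := by exact_mod_cast h2
    have h4 : |m| = |k| * N := by
      rw [← abs_neg, h3, abs_mul]; simp
    have hk0 : k ≠ 0 := by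
      rintro rfl
      apply hm
      linarith
    have : 1 ≤ |k| := Int.one_le_abs hk0
    nlinarith
  have hζN : ζ ^ N = 1 := by
    rw [hζ, ← Complex.exp_nat_mul, Complex.exp_eq_one_iff]
    refine ⟨-m, ?_⟩
    push_cast
    field_simp
  have hsum : ∑ j ∈ range N, ζ ^ j = 0 := by
    have := mul_geom_sum ζ N
    rw [hζN, sub_self] at this
    rcases mul_eq_zero.1 this with h | h
    · exact absurd (sub_eq_zero.1 h) hζ1
    · exact h
  have key : (∑ j ∈ range N, Complex.exp (((m * (θ - xnode N j) : ℝ) : ℂ) * Complex.I)) = 0 := by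
    have : ∀ j ∈ range N, Complex.exp (((m * (θ - xnode N j) : ℝ) : ℂ) * Complex.I)
        = Complex.exp ((m * θ : ℂ) * Complex.I) * ζ ^ j := by
      intro j _
      rw [hζ, ← Complex.exp_nat_mul, ← Complex.exp_add]
      congr 1
      unfold xnode
      push_cast
      field_simp
      ring
    rw [sum_congr rfl this, ← mul_sum, hsum, mul_zero]
  have h2 := congrArg Complex.re key
  simp only [Complex.re_sum, Complex.exp_ofReal_mul_I_re, Complex.zero_re] at h2
  exact h2

lemma sum_cos (N : ℕ) (m : ℤ) (hmN : |m| < N) (θ : ℝ) :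
    ∑ j ∈ range N, Real.cos (m * (θ - xnode N j)) = if m = 0 then (N : ℝ) else 0 := by
  split_ifs with h
  · subst h; simp
  · exact sum_cos_eq_zero N m h hmN θ

/-- Fejer-Korovkin coefficients -/
noncomputable def cf (n k : ℕ) : ℝ := Real.sin (π * (k + 1) / (n + 2))

lemma cf_succ (n : ℕ) : cf n (n + 1) = 0 := by
  unfold cf
  have : π * (((n + 1 : ℕ) : ℝ) + 1) / (n + 2) = π := by
    push_cast; field_simp; ring
  rw [this, Real.sin_pi]

lemma cf_pos (n k : ℕ) (hk : k ≤ n) : 0 < cf n k := by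
  unfold cf
  apply Real.sin_pos_of_pos_of_lt_pi
  · positivity
  · rw [div_lt_iff₀ (by positivity)]
    have : (k : ℝ) + 1 < n + 2 := by exact_mod_cast (by omega : k + 1 < n + 2)
    exact mul_lt_mul_of_pos_left this Real.pi_pos

noncomputable def Sn (n : ℕ) : ℝ := ∑ k ∈ range (n + 1), cf n k ^ 2

lemma Sn_pos (n : ℕ) : 0 < Sn n := by
  unfold Sn
  apply sum_pos
  · intro k hk
    have := cf_pos n k (by simpa [Nat.lt_succ_iff] using hk)
    positivity
  · exact ⟨0, by simp⟩

/-- the kernel -/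
noncomputable def Kf (n : ℕ) (y : ℝ) : ℝ :=
  ∑ k ∈ range (n + 1), ∑ l ∈ range (n + 1), cf n k * cf n l * Real.cos (((k : ℤ) - (l : ℤ) : ℤ) * y)

lemma Kf_eq (n : ℕ) (y : ℝ) :
    Kf n y = (∑ k ∈ range (n + 1), cf n k * Real.cos (k * y)) ^ 2
      + (∑ k ∈ range (n + 1), cf n k * Real.sin (k * y)) ^ 2 := by
  unfold Kf
  rw [sq, sq, sum_mul_sum, sum_mul_sum, ← sum_add_distrib]
  refine sum_congr rfl fun k _ => ?_
  rw [← sum_add_distrib]
  refine sum_congr rfl fun l _ => ?_
  push_cast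
  rw [sub_mul, Real.cos_sub]
  ring

lemma Kf_nonneg (n : ℕ) (y : ℝ) : 0 ≤ Kf n y := by
  rw [Kf_eq]; positivity

lemma sum_Kf (n : ℕ) (θ : ℝ) :
    ∑ j ∈ range (n + 2), Kf n (θ - xnode (n + 2) j) = (n + 2 : ℝ) * Sn n := by
  unfold Kf
  rw [sum_comm]
  unfold Sn
  rw [mul_sum]
  refine sum_congr rfl fun k hk => ?_
  rw [sum_comm]
  have hk' : k ≤ n := by simpa [Nat.lt_succ_iff] using hk
  have : ∀ l ∈ range (n + 1), ∑ j ∈ range (n + 2),
      cf n k * cf n l * Real.cos (((k : ℤ) - (l : ℤ) : ℤ) * (θ - xnode (n + 2) j))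
      = if l = k then (n + 2 : ℝ) * cf n k ^ 2 else 0 := by
    intro l hl
    have hl' : l ≤ n := by simpa [Nat.lt_succ_iff] using hl
    rw [← mul_sum, sum_cos]
    · split_ifs with h1 h2 h2
      · subst h2; push_cast; ring
      · omega
      · omega
      · simp
    · rw [abs_lt]; push_cast; constructor <;> omega
  rw [sum_congr rfl this, sum_ite_eq']
  simp [hk]

lemma sum_shift (n : ℕ) :
    2 * ∑ k ∈ range (n + 1), cf n k * cf n (k + 1) = 2 * Real.cos (π / (n + 2)) * Sn n := by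
  set b : ℕ → ℝ := fun k => Real.sin (π * k / (n + 2)) with hb
  have hcf : ∀ k, cf n k = b (k + 1) := by
    intro k; simp [hb, cf]
  have hrec : ∀ k : ℕ, b (k + 2) + b k = 2 * Real.cos (π / (n + 2)) * b (k + 1) := by
    intro k
    simp only [hb]
    have e1 : π * ((k + 2 : ℕ) : ℝ) / (n + 2) = π * ((k + 1 : ℕ) : ℝ) / (n + 2) + π / (n + 2) := by
      push_cast; ring
    have e2 : π * (k : ℝ) / (n + 2) = π * ((k + 1 : ℕ) : ℝ) / (n + 2) - π / (n + 2) := by
      push_cast; ring
    rw [e1, e2, Real.sin_add, Real.sin_sub]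
    ring
  have hb0 : b 0 = 0 := by simp [hb]
  have hbn : b (n + 2) = 0 := by
    have := cf_succ n
    rwa [hcf] at this
  have h1 : ∑ k ∈ range (n + 1), b (k + 1) * b k = ∑ k ∈ range (n + 1), b (k + 1) * b (k + 2) := by
    rw [sum_range_succ', hb0, sum_range_succ (fun k => b (k + 1) * b (k + 2)), hbn]
    simp only [mul_zero, add_zero]
    refine sum_congr rfl fun k _ => ?_
    ring
  have h2 : ∑ k ∈ range (n + 1), b (k + 1) * (b (k + 2) + b k)
      = 2 * Real.cos (π / (n + 2)) * Sn n := by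
    unfold Sn
    rw [mul_sum]
    refine sum_congr rfl fun k _ => ?_
    rw [hrec, hcf]; ring
  simp only [hcf]
  rw [← h2]
  have : ∀ k ∈ range (n + 1), b (k + 1) * (b (k + 2) + b k) = b (k + 1) * b (k + 2) + b (k + 1) * b k := by
    intro k _; ring
  rw [sum_congr rfl this, sum_add_distrib, h1]
  ring

lemma sum_Kf_cos (n : ℕ) (θ : ℝ) :
    ∑ j ∈ range (n + 2), Kf n (θ - xnode (n + 2) j) * (1 - Real.cos (θ - xnode (n + 2) j))
      = (n + 2 : ℝ) * ((1 - Real.cos (π / (n + 2))) * Sn n) := by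
  have expand : ∀ y : ℝ, Kf n y * (1 - Real.cos y) = Kf n y -
      (1 / 2) * (∑ k ∈ range (n + 1), ∑ l ∈ range (n + 1), cf n k * cf n l *
        (Real.cos (((k : ℤ) - (l : ℤ) + 1 : ℤ) * y) + Real.cos (((k : ℤ) - (l : ℤ) - 1 : ℤ) * y))) := by
    intro y
    rw [mul_sub, mul_one]
    congr 1
    unfold Kf
    rw [sum_mul, mul_sum]
    refine sum_congr rfl fun k _ => ?_
    rw [sum_mul, mul_sum]
    refine sum_congr rfl fun l _ => ?_
    push_cast
    rw [add_mul ((k : ℝ) - l) 1 y, sub_mul ((k : ℝ) - l) 1 y, Real.cos_add, Real.cos_sub, one_mul]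
    ring
  simp only [expand]
  rw [sum_sub_distrib, sum_Kf, ← mul_sum, sum_comm]
  have hmain : ∀ k ∈ range (n + 1), ∑ j ∈ range (n + 2), ∑ l ∈ range (n + 1), cf n k * cf n l *
        (Real.cos (((k : ℤ) - (l : ℤ) + 1 : ℤ) * (θ - xnode (n + 2) j))
          + Real.cos (((k : ℤ) - (l : ℤ) - 1 : ℤ) * (θ - xnode (n + 2) j)))
      = (n + 2 : ℝ) * (cf n k * cf n (k + 1)) + (n + 2 : ℝ) *
        (if k = 0 then 0 else cf n k * cf n (k - 1)) := by
    intro k hk
    have hk' : k ≤ n := by simpa [Nat.lt_succ_iff] using hk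
    rw [sum_comm]
    have : ∀ l ∈ range (n + 1), ∑ j ∈ range (n + 2), cf n k * cf n l *
        (Real.cos (((k : ℤ) - (l : ℤ) + 1 : ℤ) * (θ - xnode (n + 2) j))
          + Real.cos (((k : ℤ) - (l : ℤ) - 1 : ℤ) * (θ - xnode (n + 2) j)))
        = (if l = k + 1 then (n + 2 : ℝ) * (cf n k * cf n (k + 1)) else 0)
          + (if l + 1 = k then (n + 2 : ℝ) * (cf n k * cf n (k - 1)) else 0) := by
      intro l hl
      have hl' : l ≤ n := by simpa [Nat.lt_succ_iff] using hl
      rw [← mul_sum, sum_add_distrib, sum_cos, sum_cos, mul_add]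
      · congr 1
        · split_ifs with h1 h2 h2
          · subst h2; push_cast; ring
          · omega
          · omega
          · simp
        · split_ifs with h1 h2 h2
          · subst h2; push_cast; ring
          · omega
          · omega
          · simp
      · rw [abs_lt]; push_cast; constructor <;> omega
      · rw [abs_lt]; push_cast; constructor <;> omega
    rw [sum_congr rfl this, sum_add_distrib]
    congr 1
    · rw [sum_ite_eq']
      split_ifs with h
      · rfl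
      · have : k = n := by
          simp at h; omega
        subst this
        rw [cf_succ]; simp
    · rcases Nat.eq_zero_or_pos k with h0 | h0
      · subst h0; simp
      · rw [if_neg (by omega)]
        have : ∀ l ∈ range (n + 1), (if l + 1 = k then (n + 2 : ℝ) * (cf n k * cf n (k - 1)) else 0)
          = if l = k - 1 then (n + 2 : ℝ) * (cf n k * cf n (k - 1)) else 0 := by
          intro l _
          by_cases h : l + 1 = k
          · rw [if_pos h, if_pos (by omega)]
          · rw [if_neg h, if_neg (by omega)]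
        rw [sum_congr rfl this, sum_ite_eq', if_pos (by simp; omega)]
  rw [sum_congr rfl hmain, sum_add_distrib, ← mul_sum, ← mul_sum]
  have hshift : ∑ k ∈ range (n + 1), (if k = 0 then 0 else cf n k * cf n (k - 1))
      = ∑ k ∈ range (n + 1), cf n k * cf n (k + 1) := by
    rw [sum_range_succ', sum_range_succ (fun k => cf n k * cf n (k + 1)), cf_succ]
    simp only [if_true, mul_zero, add_zero]
    refine sum_congr rfl fun k _ => ?_
    simp; ring
  rw [hshift]
  have := sum_shift n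
  linear_combination (-(n + 2 : ℝ) / 2) * this

/-- weight polynomials -/
noncomputable def wpoly (n j : ℕ) : Polynomial ℝ :=
  ∑ k ∈ range (n + 1), ∑ l ∈ range (n + 1),
    Polynomial.C (cf n k * cf n l * Real.cos (((k : ℤ) - (l : ℤ) : ℤ) * xnode (n + 2) j)
      / ((n + 2) * Sn n)) * Polynomial.Chebyshev.T ℝ ((k : ℤ) - (l : ℤ))

lemma wpoly_natDegree (n j : ℕ) : (wpoly n j).natDegree ≤ n := by
  unfold wpoly
  apply Polynomial.natDegree_sum_le_of_forall_le
  intro k hk
  apply Polynomial.natDegree_sum_le_of_forall_le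
  intro l hl
  refine (Polynomial.natDegree_C_mul_le _ _).trans ?_
  rw [Polynomial.Chebyshev.natDegree_T]
  have hk' : k ≤ n := by simpa [Nat.lt_succ_iff] using hk
  have hl' : l ≤ n := by simpa [Nat.lt_succ_iff] using hl
  omega

lemma wpoly_eval (n j : ℕ) (θ : ℝ) : (wpoly n j).eval (Real.cos θ)
    = (Kf n (θ - xnode (n + 2) j) + Kf n (θ + xnode (n + 2) j)) / (2 * ((n + 2) * Sn n)) := by
  unfold wpoly Kf
  have hS := Sn_pos n
  simp only [Polynomial.eval_finsetSum, Polynomial.eval_mul, Polynomial.eval_C,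
    Polynomial.Chebyshev.T_real_cos]
  rw [← sum_add_distrib, sum_div]
  refine sum_congr rfl fun k _ => ?_
  rw [← sum_add_distrib, sum_div]
  refine sum_congr rfl fun l _ => ?_
  rw [mul_sub, mul_add, Real.cos_sub, Real.cos_add]
  field_simp
  ring

lemma Kf_even (n : ℕ) (y : ℝ) : Kf n (-y) = Kf n y := by
  unfold Kf
  refine sum_congr rfl fun k _ => sum_congr rfl fun l _ => ?_
  rw [mul_neg, Real.cos_neg]

/-- the node values -/
noncomputable def tnode (n j : ℕ) : ℝ := Real.cos (xnode (n + 2) j)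

lemma tnode_mem (n j : ℕ) : tnode n j ∈ Set.Icc (-1 : ℝ) 1 :=
  ⟨Real.neg_one_le_cos _, Real.cos_le_one _⟩

lemma wpoly_nonneg (n j : ℕ) {s : ℝ} (hs : s ∈ Set.Icc (-1 : ℝ) 1) : 0 ≤ (wpoly n j).eval s := by
  rw [← Real.cos_arccos hs.1 hs.2, wpoly_eval]
  have := Kf_nonneg n (Real.arccos s - xnode (n + 2) j)
  have := Kf_nonneg n (Real.arccos s + xnode (n + 2) j)
  have := Sn_pos n
  positivity

lemma wpoly_sum (n : ℕ) {s : ℝ} (hs : s ∈ Set.Icc (-1 : ℝ) 1) :
    ∑ j ∈ range (n + 2), (wpoly n j).eval s = 1 := by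
  rw [← Real.cos_arccos hs.1 hs.2]
  set θ := Real.arccos s
  have hS := Sn_pos n
  simp only [wpoly_eval]
  rw [← sum_div, sum_add_distrib, sum_Kf]
  have : ∀ j ∈ range (n + 2), Kf n (θ + xnode (n + 2) j) = Kf n (-θ - xnode (n + 2) j) := by
    intro j _
    rw [← Kf_even]; congr 1; ring
  rw [sum_congr rfl this, sum_Kf]
  field_simp
  ring

lemma cos_sub_cos_sq_le (x y : ℝ) : (Real.cos x - Real.cos y) ^ 2 ≤ 2 * (1 - Real.cos (y - x)) := by
  rw [Real.cos_sub]
  nlinarith [Real.sin_sq_add_cos_sq x, Real.sin_sq_add_cos_sq y, sq_nonneg (Real.sin x - Real.sin y)]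

lemma wpoly_moment (n : ℕ) {s : ℝ} (hs : s ∈ Set.Icc (-1 : ℝ) 1) :
    ∑ j ∈ range (n + 2), (wpoly n j).eval s * (tnode n j - s) ^ 2
      ≤ 2 * (1 - Real.cos (π / (n + 2))) := by
  rw [← Real.cos_arccos hs.1 hs.2]
  set θ := Real.arccos s
  have hS := Sn_pos n
  have hpos : 0 < 2 * ((n + 2 : ℝ) * Sn n) := by positivity
  have hle : ∀ j ∈ range (n + 2), (wpoly n j).eval (Real.cos θ) * (tnode n j - Real.cos θ) ^ 2
      ≤ (2 * (Kf n (θ - xnode (n + 2) j) * (1 - Real.cos (θ - xnode (n + 2) j)))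
        + 2 * (Kf n (-θ - xnode (n + 2) j) * (1 - Real.cos (-θ - xnode (n + 2) j))))
          / (2 * ((n + 2 : ℝ) * Sn n)) := by
    intro j _
    rw [wpoly_eval, div_mul_eq_mul_div]
    apply div_le_div_of_nonneg_right _ hpos.le
    have e1 : Kf n (θ + xnode (n + 2) j) = Kf n (-θ - xnode (n + 2) j) := by
      rw [← Kf_even]; congr 1; ring
    rw [e1, add_mul]
    have k1 := Kf_nonneg n (θ - xnode (n + 2) j)
    have k2 := Kf_nonneg n (-θ - xnode (n + 2) j)
    have c1 := cos_sub_cos_sq_le (xnode (n + 2) j) θ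
    have c2 := cos_sub_cos_sq_le (xnode (n + 2) j) (-θ)
    rw [Real.cos_neg] at c2
    unfold tnode
    have := mul_le_mul_of_nonneg_left c1 k1
    have := mul_le_mul_of_nonneg_left c2 k2
    linarith
  refine (sum_le_sum hle).trans ?_
  rw [← sum_div, sum_add_distrib, ← mul_sum, ← mul_sum, sum_Kf_cos, sum_Kf_cos]
  apply le_of_eq
  field_simp
  ring

lemma moment_bound (n : ℕ) : 2 * (1 - Real.cos (π / (n + 2))) ≤ 10 / (n + 2 : ℝ) ^ 2 := by
  have h := Real.one_sub_sq_div_two_le_cos (x := π / (n + 2))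
  have : 2 * (1 - Real.cos (π / (n + 2))) ≤ π ^ 2 / (n + 2) ^ 2 := by
    rw [← div_pow]; linarith
  refine this.trans ?_
  apply div_le_div_of_nonneg_right _ (by positivity)
  have := Real.pi_lt_d2
  have := Real.pi_pos
  nlinarith

end Pool.Agent.Lib.MP_24cacf_an
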