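import Mathlib
import Pool.Agent.Lib.MP_24cacf_an.Geom

namespace Pool.Agent.Lib.MP_24cacf_an

open Set Real MeasureTheory
open scoped ENNReal NNReal Pointwise

/-- chord length bound -/
lemma norm_sub_le_hausdorff {K : Set E2} (hK : IsCompact K) (hc : Convex ℝ K) {x y : E2}
    (hx : x ∈ K) (hy : y ∈ K) : ENNReal.ofReal ‖y - x‖ ≤ μH[1] (frontier K) := by
  rcases eq_or_ne x y with rfl | hxy
  · simp
  have hd : 0 < ‖y - x‖ := norm_pos_iff.2 (sub_ne_zero.2 hxy.symm)
  set e : E2 := (‖y - x‖)⁻¹ • (y - x) with he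
  have hen : ‖e‖ = 1 := by
    rw [he, norm_smul, norm_inv, norm_norm, inv_mul_cancel₀ hd.ne']
  have hye : (inner ℝ e (y - x) : ℝ) = ‖y - x‖ := by
    rw [he, inner_smul_left, real_inner_self_eq_norm_sq]
    simp; field_simp
  set J : E2 := !₂[-(e 1), e 0] with hJ
  have hJn : ‖J‖ = 1 := by
    have : ‖J‖ ^ 2 = 1 := by
      rw [norm_sq_eq, hJ]; have := norm_sq_eq e; rw [hen] at this; simp; linarith
    nlinarith [norm_nonneg J]
  have hJe : (inner ℝ e J : ℝ) = 0 := by
    rw [inner_eq, hJ]; simp; ring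
  have hsub : Icc (inner ℝ e x : ℝ) (inner ℝ e y : ℝ) ⊆ (fun z : E2 => (inner ℝ e z : ℝ)) '' frontier K := by
    intro τ hτ
    obtain ⟨R, hR⟩ := hK.isBounded.exists_norm_le
    set w : E2 := x + (τ - inner ℝ e x) • e with hw
    have hwK : w ∈ K := by
      have e1 : w = (1 - (τ - inner ℝ e x) / ‖y - x‖) • x + ((τ - inner ℝ e x) / ‖y - x‖) • y := by
        rw [hw, he, smul_smul, ← div_eq_mul_inv, sub_smul, smul_sub, one_smul]; abel
      rw [e1]
      have h2 : (inner ℝ e y : ℝ) - inner ℝ e x = ‖y - x‖ := by rw [← hye, inner_sub_right]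
      apply hc hx hy
      · rw [sub_nonneg, div_le_one hd]; linarith [hτ.2]
      · exact div_nonneg (by linarith [hτ.1]) hd.le
      · ring
    have hwe : (inner ℝ e w : ℝ) = τ := by
      rw [hw, inner_add_right, inner_smul_right, real_inner_self_eq_norm_sq, hen]; ring
    set b : E2 := w + (2 * R + 1) • J with hb
    have hR0 : 0 ≤ R := (norm_nonneg _).trans (hR w hwK)
    have hbK : b ∉ K := by
      intro hbK
      have h1 := hR b hbK
      have h2 := hR w hwK
      have h3 : ‖(2 * R + 1) • J‖ = 2 * R + 1 := by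
        rw [norm_smul, hJn, Real.norm_of_nonneg (by linarith)]; ring
      have h4 : (2 * R + 1) • J = b - w := by rw [hb]; abel
      have h5 := norm_sub_le b w
      rw [← h4, h3] at h5
      linarith
    obtain ⟨t, _, hfr⟩ := exists_frontier hK.isClosed hwK hbK
    refine ⟨_, hfr, ?_⟩
    show (inner ℝ e (w + t • (b - w)) : ℝ) = τ
    rw [hb, add_sub_cancel_left, inner_add_right, hwe, inner_smul_right, inner_smul_right, hJe]
    ring
  have hlip : LipschitzWith 1 (fun z : E2 => (inner ℝ e z : ℝ)) := by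
    apply LipschitzWith.of_dist_le_mul
    intro a b
    rw [Real.dist_eq, ← inner_sub_right, dist_eq_norm]
    have := abs_real_inner_le_norm e (a - b)
    rw [hen] at this
    simpa using this
  calc ENNReal.ofReal ‖y - x‖ = volume (Icc (inner ℝ e x : ℝ) (inner ℝ e y : ℝ)) := by
        rw [Real.volume_Icc, ← hye, inner_sub_right]
    _ = μH[1] (Icc (inner ℝ e x : ℝ) (inner ℝ e y : ℝ)) := by rw [hausdorffMeasure_real]
    _ ≤ μH[1] ((fun z : E2 => (inner ℝ e z : ℝ)) '' frontier K) := measure_mono hsub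
    _ ≤ ((1 : ℝ≥0) : ℝ≥0∞) ^ (1 : ℝ) * μH[1] (frontier K) :=
        hlip.hausdorffMeasure_image_le zero_le_one _
    _ = μH[1] (frontier K) := by simp

/-- perimeter bound for sets in a unit ball -/
lemma hausdorff_frontier_le {K : Set E2} (hK : IsCompact K) (hc : Convex ℝ K)
    (hint : (interior K).Nonempty) (x₀ : E2) (hx : ∀ y ∈ K, ‖y - x₀‖ ≤ 1) :
    μH[1] (frontier K) ≤ 16 := by
  obtain ⟨p⟩ := exists_param hK hc hint x₀ hx
  have hsub : frontier K ⊆ p.Φ '' Icc (-(1 / 2) : ℝ) (1 / 2) := by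
    intro q hq
    obtain ⟨s, hs, h⟩ := p.surj q hq
    exact ⟨s, hs, h⟩
  have hlip : LipschitzWith 16 p.Φ := by
    apply LipschitzWith.of_dist_le_mul
    intro a b
    rw [dist_eq_norm, Real.dist_eq]
    exact p.lipΦ a b
  calc μH[1] (frontier K) ≤ μH[1] (p.Φ '' Icc (-(1 / 2) : ℝ) (1 / 2)) := measure_mono hsub
    _ ≤ ((16 : ℝ≥0) : ℝ≥0∞) ^ (1 : ℝ) * μH[1] (Icc (-(1 / 2) : ℝ) (1 / 2)) :=
        hlip.hausdorffMeasure_image_le zero_le_one _
    _ = 16 := by
        rw [hausdorffMeasure_real, Real.volume_Icc]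
        norm_num

/-- polygon with vertices on a parabola -/
def Kp (N : ℕ) : Set E2 :=
  {v | v 1 ≤ 1 ∧ ∀ i ∈ Finset.Ico (-(N : ℤ)) N, (2 * i + 1 : ℝ) / N * v 0 - i * (i + 1) / N ^ 2 ≤ v 1}

lemma Kp_closed (N : ℕ) : IsClosed (Kp N) := by
  have : Kp N = {v : E2 | v 1 ≤ 1} ∩ ⋂ i ∈ Finset.Ico (-(N : ℤ)) N,
      {v : E2 | (2 * i + 1 : ℝ) / N * v 0 - i * (i + 1) / N ^ 2 ≤ v 1} := by
    ext v; simp [Kp]
  rw [this]
  apply IsClosed.inter
  · exact isClosed_le (by fun_prop) continuous_const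
  · apply isClosed_biInter
    intro i _
    exact isClosed_le (by fun_prop) (by fun_prop)

lemma Kp_convex (N : ℕ) : Convex ℝ (Kp N) := by
  intro v hv w hw a b ha hb hab
  refine ⟨?_, fun i hi => ?_⟩
  · simp only [PiLp.add_apply, PiLp.smul_apply, smul_eq_mul]
    nlinarith [hv.1, hw.1]
  · have h1 := mul_le_mul_of_nonneg_left (hv.2 i hi) ha
    have h2 := mul_le_mul_of_nonneg_left (hw.2 i hi) hb
    simp only [PiLp.add_apply, PiLp.smul_apply, smul_eq_mul]
    have e : (2 * (i : ℝ) + 1) / N * (a * v 0 + b * w 0) - i * (i + 1) / N ^ 2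
      = a * ((2 * (i : ℝ) + 1) / N * v 0 - i * (i + 1) / N ^ 2)
        + b * ((2 * (i : ℝ) + 1) / N * w 0 - i * (i + 1) / N ^ 2) := by
      have : (i : ℝ) * (i + 1) / N ^ 2 = (a + b) * (i * (i + 1) / N ^ 2) := by rw [hab, one_mul]
      linear_combination (-1 : ℝ) * this
    rw [e]; linarith

lemma Kp_bound {N : ℕ} (hN : 1 ≤ N) {v : E2} (hv : v ∈ Kp N) : |v 0| ≤ 1 ∧ 0 ≤ v 1 ∧ v 1 ≤ 1 := by
  have hN' : (1 : ℝ) ≤ N := by exact_mod_cast hN
  have hN0 : (0 : ℝ) < N := by linarith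
  have h1 := hv.2 (N - 1) (by simp; omega)
  have h2 := hv.2 (-N) (by simp; omega)
  have h3 := hv.2 0 (by simp; omega)
  have h4 := hv.2 (-1) (by simp; omega)
  have h5 := hv.1
  push_cast at h1 h2 h3 h4
  refine ⟨?_, ?_, h5⟩
  · rw [abs_le]
    constructor
    · have e : (2 * -(N : ℝ) + 1) / N * v 0 - -N * (-N + 1) / N ^ 2 = ((-(2 * N - 1)) * v 0 - (N - 1)) / N := by
        field_simp; ring
      rw [e] at h2
      have h6 : ((-(2 * (N : ℝ) - 1)) * v 0 - (N - 1)) / N ≤ 1 := h2.trans h5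
      rw [div_le_one hN0] at h6
      by_contra hcon
      push Not at hcon
      nlinarith
    · have e : (2 * ((N : ℝ) - 1) + 1) / N * v 0 - (N - 1) * (N - 1 + 1) / N ^ 2 = ((2 * N - 1) * v 0 - (N - 1)) / N := by
        field_simp; ring
      rw [e] at h1
      have h6 : ((2 * (N : ℝ) - 1) * v 0 - (N - 1)) / N ≤ 1 := h1.trans h5
      rw [div_le_one hN0] at h6
      by_contra hcon
      push Not at hcon
      nlinarith
  · norm_num at h3 h4
    rcases le_total 0 (v 0) with h | h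
    · exact le_trans (by positivity) h3
    · have : 0 ≤ -1 / (N : ℝ) * v 0 := by
        apply mul_nonneg_of_nonpos_of_nonpos _ h
        exact div_nonpos_of_nonpos_of_nonneg (by norm_num) hN0.le
      linarith

lemma Kp_norm {N : ℕ} (hN : 1 ≤ N) {v : E2} (hv : v ∈ Kp N) : ‖v‖ ≤ 2 := by
  obtain ⟨h1, h2, h3⟩ := Kp_bound hN hv
  have h := norm_sq_eq v
  have h4 : v 0 ^ 2 ≤ 1 := by rw [← sq_abs]; nlinarith [abs_nonneg (v 0)]
  have h5 : v 1 ^ 2 ≤ 1 := by nlinarith
  nlinarith [norm_nonneg v]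

lemma Kp_compact {N : ℕ} (hN : 1 ≤ N) : IsCompact (Kp N) := by
  apply Metric.isCompact_of_isClosed_isBounded (Kp_closed N)
  rw [isBounded_iff_forall_norm_le]
  exact ⟨2, fun v hv => Kp_norm hN hv⟩

lemma Kp_interior {N : ℕ} (hN : 1 ≤ N) : (interior (Kp N)).Nonempty := by
  have hopen : IsOpen ({v : E2 | v 1 < 1} ∩ ⋂ i ∈ Finset.Ico (-(N : ℤ)) N,
      {v : E2 | (2 * i + 1 : ℝ) / N * v 0 - i * (i + 1) / N ^ 2 < v 1}) := by
    apply IsOpen.inter
    · exact isOpen_lt (by fun_prop) continuous_const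
    · apply isOpen_biInter_finset
      intro i _
      exact isOpen_lt (by fun_prop) (by fun_prop)
  refine ⟨!₂[0, 1 / 2], ?_⟩
  rw [mem_interior]
  refine ⟨_, ?_, hopen, ?_⟩
  · intro v hv
    simp only [mem_inter_iff, mem_ofPred_eq, mem_iInter] at hv
    exact ⟨hv.1.le, fun i hi => (hv.2 i hi).le⟩
  · simp only [mem_inter_iff, mem_ofPred_eq, mem_iInter]
    constructor
    · simp; norm_num
    · intro i _
      have : (0 : ℝ) ≤ i * (i + 1) := by
        have : (0 : ℤ) ≤ i * (i + 1) := by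
          rcases lt_or_ge i 0 with h | h
          · nlinarith
          · positivity
        exact_mod_cast this
      have h2 : 0 ≤ (i : ℝ) * (i + 1) / N ^ 2 := by positivity
      simp
      norm_num
      linarith

lemma vertex_mem {N : ℕ} (hN : 1 ≤ N) {i : ℤ} (hi : i ∈ Finset.Ico (-(N : ℤ)) N) :
    (!₂[(i : ℝ) / N, (i : ℝ) ^ 2 / N ^ 2] : E2) ∈ frontier (Kp N) := by
  have hN' : (1 : ℝ) ≤ N := by exact_mod_cast hN
  have hN0 : (0 : ℝ) < N := by linarith
  rw [Finset.mem_Ico] at hi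
  have hmem : (!₂[(i : ℝ) / N, (i : ℝ) ^ 2 / N ^ 2] : E2) ∈ Kp N := by
    constructor
    · simp
      rw [div_le_one (by positivity)]
      have h1 : (i : ℝ) ≤ N := by exact_mod_cast hi.2.le
      have h2 : -(N : ℝ) ≤ i := by exact_mod_cast hi.1
      nlinarith
    · intro k _
      simp
      have h3 : (0 : ℝ) ≤ (i - k) * (i - k - 1) := by
        have : (0 : ℤ) ≤ (i - k) * (i - k - 1) := by
          rcases lt_or_ge (i - k) 1 with h | h
          · have : i - k ≤ 0 := by omega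
            nlinarith
          · nlinarith
        exact_mod_cast this
      have e : (2 * (k : ℝ) + 1) / N * (i / N) = ((2 * k + 1) * i) / N ^ 2 := by field_simp
      rw [e, ← add_div]
      apply div_le_div_of_nonneg_right _ (by positivity)
      nlinarith
  rw [(Kp_closed N).frontier_eq]
  refine ⟨hmem, ?_⟩
  intro hint
  rw [mem_interior_iff_mem_nhds, Metric.mem_nhds_iff] at hint
  obtain ⟨ε, hε, hball⟩ := hint
  set w : E2 := !₂[(i : ℝ) / N, (i : ℝ) ^ 2 / N ^ 2 - ε / 2] with hw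
  have hwb : w ∈ Metric.ball (!₂[(i : ℝ) / N, (i : ℝ) ^ 2 / N ^ 2] : E2) ε := by
    rw [Metric.mem_ball, dist_eq_norm]
    have h1 := norm_sq_eq (w - !₂[(i : ℝ) / N, (i : ℝ) ^ 2 / N ^ 2])
    simp [hw] at h1
    nlinarith [norm_nonneg (w - !₂[(i : ℝ) / N, (i : ℝ) ^ 2 / N ^ 2])]
  have h1 := (hball hwb).2 i (by rw [Finset.mem_Ico]; exact hi)
  simp [hw] at h1
  have e : (2 * (i : ℝ) + 1) / N * (i / N) = i * (i + 1) / N ^ 2 + i ^ 2 / N ^ 2 := by
    field_simp; ring
  rw [e] at h1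
  linarith

/-- main counting lemma -/
lemma lower_core {N n : ℕ} (hN : 1 ≤ N) (P Q : Polynomial ℝ) (hP : P.natDegree ≤ n)
    (hQ : Q.natDegree ≤ n) (ε : ℝ) (hε0 : 0 ≤ ε) (hε : 24 * (N : ℝ) ^ 2 * ε < 1)
    (h1 : ∀ i ∈ Finset.Ico (-(N : ℤ)) N, ∃ t ∈ Icc (0 : ℝ) 1,
      |P.eval t - i / N| ≤ ε ∧ |Q.eval t - (i : ℝ) ^ 2 / N ^ 2| ≤ ε)
    (h2 : ∀ t ∈ Icc (0 : ℝ) 1, ∃ q ∈ Kp N, |P.eval t - q 0| ≤ ε ∧ |Q.eval t - q 1| ≤ ε) :
    2 * N ≤ n + 1 := by
  have hN' : (1 : ℝ) ≤ N := by exact_mod_cast hN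
  have hN0 : (0 : ℝ) < N := by linarith
  have hεN : ε < 1 / (24 * (N : ℝ) ^ 2) := by rw [lt_div_iff₀ (by positivity)]; linarith
  choose! t ht htP htQ using h1
  set κ : ℝ := 1 / (8 * (N : ℝ) ^ 2) with hκ
  have hκε : 3 * ε < κ := by
    rw [hκ]
    have : 1 / (8 * (N : ℝ) ^ 2) = 3 * (1 / (24 * (N : ℝ) ^ 2)) := by field_simp; norm_num
    rw [this]; linarith
  set D : Polynomial ℝ := Q - P ^ 2 - Polynomial.C κ with hD
  have hDe : ∀ x, D.eval x = Q.eval x - (P.eval x) ^ 2 - κ := by intro x; simp [hD]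
  have hDdeg : D.natDegree ≤ 2 * n := by
    rw [hD]
    refine (Polynomial.natDegree_sub_le _ _).trans (max_le ?_ (by simp))
    refine (Polynomial.natDegree_sub_le _ _).trans (max_le (by omega) ?_)
    exact (Polynomial.natDegree_pow_le).trans (by omega)
  have hDt : ∀ i ∈ Finset.Ico (-(N : ℤ)) N, D.eval (t i) < 0 := by
    intro i hi
    rw [hDe]
    have a1 := abs_le.1 (htP i hi)
    have a2 := abs_le.1 (htQ i hi)
    rw [Finset.mem_Ico] at hi
    have b1 : (i : ℝ) / N ≤ 1 := by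
      rw [div_le_one hN0]; exact_mod_cast hi.2.le
    have b2 : -1 ≤ (i : ℝ) / N := by
      rw [le_div_iff₀ hN0]; have : -(N : ℝ) ≤ i := by exact_mod_cast hi.1
      linarith
    have e : (i : ℝ) ^ 2 / N ^ 2 = (i / N) ^ 2 := by rw [div_pow]
    rw [e] at a2
    set u := (i : ℝ) / N
    set a := P.eval (t i) - u with ha
    have : P.eval (t i) = u + a := by rw [ha]; ring
    rw [this]
    have hua : -ε ≤ u * a := by
      have : |u * a| ≤ 1 * ε := by
        rw [abs_mul]
        exact mul_le_mul (abs_le.2 ⟨b2, b1⟩) (htP i (by rw [Finset.mem_Ico]; exact hi)) (abs_nonneg _) (by norm_num)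
      linarith [(abs_le.1 this).1]
    nlinarith [sq_nonneg a]
  have hDs : ∀ i ∈ Finset.Ico (-(N : ℤ)) N, ∀ s ∈ Icc (0 : ℝ) 1, P.eval s = (i + 1 / 2) / N →
      0 < D.eval s := by
    intro i hi s hs hPs
    rw [hDe]
    obtain ⟨q, hq, c1, c2⟩ := h2 s hs
    have d1 := hq.2 i hi
    rw [hPs] at c1 ⊢
    have c1' := abs_le.1 c1
    have c2' := abs_le.1 c2
    rw [Finset.mem_Ico] at hi
    set mid : ℝ := ((i : ℝ) + 1 / 2) / N with hmid
    have b1 : mid ≤ 1 := by
      rw [hmid, div_le_one hN0]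
      have : (i : ℝ) + 1 ≤ N := by exact_mod_cast hi.2
      linarith
    have b2 : -1 ≤ mid := by
      rw [hmid, le_div_iff₀ hN0]; have : -(N : ℝ) ≤ i := by exact_mod_cast hi.1
      linarith
    have e : (2 * (i : ℝ) + 1) / N * q 0 - i * (i + 1) / N ^ 2
        = 2 * mid * q 0 - mid ^ 2 + 1 / (4 * (N : ℝ) ^ 2) := by
      rw [hmid]; field_simp; ring
    rw [e] at d1
    have hκ2 : 1 / (4 * (N : ℝ) ^ 2) = 2 * κ := by rw [hκ]; field_simp; norm_num
    rw [hκ2] at d1
    have hua : |mid * (q 0 - mid)| ≤ 1 * ε := by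
      rw [abs_mul]
      exact mul_le_mul (abs_le.2 ⟨b2, b1⟩) (by rw [abs_sub_comm]; exact c1) (abs_nonneg _) (by norm_num)
    have hua' := (abs_le.1 hua).1
    nlinarith
  -- between two distinct times there are at least two roots
  have hDne : D ≠ 0 := by
    intro h0
    have := hDt (-N) (by simp; omega)
    rw [h0] at this
    simp at this
  set Rt := D.roots.toFinset with hRt
  have hroot : ∀ x, x ∈ Rt ↔ D.eval x = 0 := by
    intro x
    rw [hRt, Multiset.mem_toFinset, Polynomial.mem_roots hDne, Polynomial.IsRoot.def]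
  set r : ℤ → ℕ := fun i => (Rt.filter (fun x => x < t i)).card with hr
  have hstep : ∀ i ∈ Finset.Ico (-(N : ℤ)) N, ∀ j ∈ Finset.Ico (-(N : ℤ)) N, i ≠ j → t i ≤ t j →
      r i + 2 ≤ r j := by
    intro i hi j hj hij htij
    -- middle parameter
    have hmid : ∃ s ∈ Icc (t i) (t j), 0 < D.eval s := by
      have hPc : ContinuousOn (fun x => P.eval x) (Icc (t i) (t j)) := P.continuous.continuousOn
      have a1 := abs_le.1 (htP i hi)
      have a2 := abs_le.1 (htP j hj)
      have hε2 : ε < 1 / 2 / N := by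
        have h24 : 1 / (24 * (N : ℝ) ^ 2) ≤ 1 / 2 / N := by
          rw [div_div]
          apply div_le_div_of_nonneg_left (by norm_num) (by positivity)
          nlinarith
        linarith
      rcases lt_or_gt_of_ne hij with hlt | hlt
      · have hc : ((i : ℝ) + 1 / 2) / N ∈ Icc (P.eval (t i)) (P.eval (t j)) := by
          have e1 : ((i : ℝ) + 1 / 2) / N = i / N + 1 / 2 / N := by rw [add_div]
          have e2 : ((i : ℝ) + 1) / N ≤ j / N := by
            apply div_le_div_of_nonneg_right _ hN0.le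
            exact_mod_cast hlt
          have e3 : ((i : ℝ) + 1) / N = i / N + 2 * (1 / 2 / N) := by field_simp
          constructor
          · rw [e1]; linarith
          · rw [e1]; rw [e3] at e2; linarith
        obtain ⟨s, hs, hs2⟩ := intermediate_value_Icc htij hPc hc
        exact ⟨s, hs, hDs i hi s ⟨(ht i hi).1.trans hs.1, hs.2.trans (ht j hj).2⟩ hs2⟩
      · have hc : ((j : ℝ) + 1 / 2) / N ∈ Icc (P.eval (t j)) (P.eval (t i)) := by
          have e1 : ((j : ℝ) + 1 / 2) / N = j / N + 1 / 2 / N := by rw [add_div]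
          have e2 : ((j : ℝ) + 1) / N ≤ i / N := by
            apply div_le_div_of_nonneg_right _ hN0.le
            exact_mod_cast hlt
          have e3 : ((j : ℝ) + 1) / N = j / N + 2 * (1 / 2 / N) := by field_simp
          constructor
          · rw [e1]; linarith
          · rw [e1]; rw [e3] at e2; linarith
        obtain ⟨s, hs, hs2⟩ := intermediate_value_Icc' htij hPc hc
        exact ⟨s, hs, hDs j hj s ⟨(ht i hi).1.trans hs.1, hs.2.trans (ht j hj).2⟩ hs2⟩
    obtain ⟨s, hs, hsD⟩ := hmid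
    have hDc : Continuous (fun x => D.eval x) := D.continuous
    obtain ⟨x, hx, hx0⟩ := intermediate_value_Icc hs.1 hDc.continuousOn
      (show (0 : ℝ) ∈ Icc (D.eval (t i)) (D.eval s) from ⟨(hDt i hi).le, hsD.le⟩)
    obtain ⟨y, hy, hy0⟩ := intermediate_value_Icc' hs.2 hDc.continuousOn
      (show (0 : ℝ) ∈ Icc (D.eval (t j)) (D.eval s) from ⟨(hDt j hj).le, hsD.le⟩)
    simp only at hx0 hy0
    have hxs : x < s := lt_of_le_of_ne hx.2 (by rintro rfl; linarith)
    have hsy : s < y := lt_of_le_of_ne hy.1 (by rintro rfl; linarith)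
    have hyj : y < t j := lt_of_le_of_ne hy.2 (by
      intro h; have := hDt j hj; rw [← h] at this; linarith)
    have hxy : x ≠ y := by linarith |> ne_of_lt
    have hsub : insert x (insert y (Rt.filter (fun z => z < t i))) ⊆ Rt.filter (fun z => z < t j) := by
      intro z hz
      rw [Finset.mem_insert, Finset.mem_insert, Finset.mem_filter] at hz
      rw [Finset.mem_filter]
      rcases hz with rfl | rfl | hz
      · exact ⟨(hroot _).2 hx0, by linarith⟩
      · exact ⟨(hroot _).2 hy0, hyj⟩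
      · exact ⟨hz.1, lt_of_lt_of_le hz.2 htij⟩
    have hcard := Finset.card_le_card hsub
    rw [Finset.card_insert_of_notMem, Finset.card_insert_of_notMem] at hcard
    · simp only [hr]; omega
    · rw [Finset.mem_filter]; intro h; linarith [h.2, hx.1]
    · rw [Finset.mem_insert, Finset.mem_filter]
      rintro (h | h)
      · exact hxy h
      · linarith [h.2, hx.1]
  have hinj : Set.InjOn (fun i => r i / 2) (Finset.Ico (-(N : ℤ)) N : Set ℤ) := by
    intro i hi j hj hij
    by_contra hne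
    simp only at hij
    rcases le_total (t i) (t j) with h | h
    · have := hstep i hi j hj hne h
      omega
    · have := hstep j hj i hi (Ne.symm hne) h
      omega
  have hcardR : Rt.card ≤ 2 * n :=
    (Multiset.toFinset_card_le _).trans ((Polynomial.card_roots' D).trans hDdeg)
  have hmaps : ∀ i ∈ Finset.Ico (-(N : ℤ)) N, r i / 2 ∈ Finset.range (n + 1) := by
    intro i _
    have : r i ≤ Rt.card := Finset.card_filter_le _ _
    rw [Finset.mem_range]
    omega
  have := Finset.card_le_card_of_injOn _ hmaps hinj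
  rw [Int.card_Ico, Finset.card_range] at this
  omega

end Pool.Agent.Lib.MP_24cacf_an
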