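import Mathlib
import Pool.Agent.Lib.MP_24cacf_an.Kernel
import Pool.Agent.Lib.MP_24cacf_an.Geom

namespace Pool.Agent.Lib.MP_24cacf_an

open Set Real

lemma ptwise {ι : Type*} (S : Finset ι) (w y G h : ι → ℝ) (δ m : ℝ) (hδ : 0 ≤ δ)
    (hδ' : 64 * δ ≤ 1) (hw : ∀ j ∈ S, 0 ≤ w j) (hm : ∑ j ∈ S, w j * (y j - δ) ^ 2 ≤ m)
    (hG : ∀ j ∈ S, |G j| ≤ 48 * |y j|) (hs : ∀ j ∈ S, 0 ≤ y j → 32 * y j ≤ 1 → 0 ≤ G j)
    (hh : ∀ j ∈ S, 32 * |y j| ≤ 1 → h j ≤ 32 * |y j| * |G j|)
    (hh2 : ∀ j ∈ S, h j ≤ 256 * |y j| ^ 2) (hF : ∑ j ∈ S, w j * G j ≤ 0) :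
    ∑ j ∈ S, w j * h j ≤ 13312 * m ∧ δ * |∑ j ∈ S, w j * G j| ≤ 96 * m := by
  -- negative part
  have hneg : ∀ j ∈ S, δ * (|G j| - G j) ≤ 192 * (y j - δ) ^ 2 := by
    intro j hj
    by_cases hGj : 0 ≤ G j
    · rw [abs_of_nonneg hGj]; simp; positivity
    · have hy : δ ≤ |y j - δ| := by
        by_contra hcon
        rw [not_le, abs_lt] at hcon
        apply hGj
        apply hs j hj
        · linarith
        · linarith
      have h1 : |G j| ≤ 48 * |y j| := hG j hj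
      have h2 : |y j| ≤ 2 * |y j - δ| := by
        have := abs_add_le (y j - δ) δ
        rw [sub_add_cancel, abs_of_nonneg hδ] at this
        linarith
      have h3 : G j = -|G j| := by rw [abs_of_neg (not_le.1 hGj)]; ring
      rw [← sq_abs (y j - δ)]
      have h4 : |G j| - G j ≤ 192 * |y j - δ| := by
        have : G j ≤ 0 := (not_le.1 hGj).le
        rw [h3]; simp; linarith
      have h5 := abs_nonneg (y j - δ)
      calc δ * (|G j| - G j) ≤ δ * (192 * |y j - δ|) := mul_le_mul_of_nonneg_left h4 hδ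
        _ ≤ |y j - δ| * (192 * |y j - δ|) := mul_le_mul_of_nonneg_right hy (by positivity)
        _ = _ := by ring
  have hsum : δ * ∑ j ∈ S, w j * (|G j| - G j) ≤ 192 * m := by
    rw [Finset.mul_sum]
    calc ∑ j ∈ S, δ * (w j * (|G j| - G j)) ≤ ∑ j ∈ S, 192 * (w j * (y j - δ) ^ 2) := by
          apply Finset.sum_le_sum
          intro j hj
          have := mul_le_mul_of_nonneg_left (hneg j hj) (hw j hj)
          linarith
      _ = 192 * ∑ j ∈ S, w j * (y j - δ) ^ 2 := by rw [Finset.mul_sum]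
      _ ≤ 192 * m := by linarith
  have hexp : ∑ j ∈ S, w j * (|G j| - G j) = ∑ j ∈ S, w j * |G j| - ∑ j ∈ S, w j * G j := by
    rw [← Finset.sum_sub_distrib]; exact Finset.sum_congr rfl fun j _ => by ring
  have hAn : 0 ≤ ∑ j ∈ S, w j * |G j| := Finset.sum_nonneg fun j hj => mul_nonneg (hw j hj) (abs_nonneg _)
  have habs : |∑ j ∈ S, w j * G j| ≤ ∑ j ∈ S, w j * |G j| := by
    refine (Finset.abs_sum_le_sum_abs _ _).trans (Finset.sum_le_sum fun j hj => ?_)
    rw [abs_mul, abs_of_nonneg (hw j hj)]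
  rw [hexp] at hsum
  have hF' : |∑ j ∈ S, w j * G j| = -∑ j ∈ S, w j * G j := abs_of_nonpos hF
  have hδA : δ * ∑ j ∈ S, w j * |G j| ≤ 192 * m := by
    have := mul_nonneg hδ (neg_nonneg.2 hF)
    nlinarith
  constructor
  · have hj : ∀ j ∈ S, w j * h j ≤ 64 * (δ * (w j * |G j|)) + 1024 * (w j * (y j - δ) ^ 2) := by
      intro j hj
      have hwj := hw j hj
      have hkey : h j ≤ 64 * (δ * |G j|) + 1024 * (y j - δ) ^ 2 := by
        have hab := abs_nonneg (G j)
        by_cases hy : |y j - δ| ≤ δ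
        · have h2 : |y j| ≤ 2 * δ := by
            have := abs_add_le (y j - δ) δ
            rw [sub_add_cancel, abs_of_nonneg hδ] at this
            linarith
          have h3 := hh j hj (by linarith)
          have h4 : |y j| * |G j| ≤ 2 * δ * |G j| := mul_le_mul_of_nonneg_right h2 hab
          have h5 := sq_nonneg (y j - δ)
          linarith
        · push Not at hy
          have h2 : |y j| ≤ 2 * |y j - δ| := by
            have := abs_add_le (y j - δ) δ
            rw [sub_add_cancel, abs_of_nonneg hδ] at this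
            linarith
          have h3 := hh2 j hj
          have h4 : |y j| ^ 2 ≤ (2 * |y j - δ|) ^ 2 := pow_le_pow_left₀ (abs_nonneg _) h2 2
          rw [mul_pow, sq_abs (y j - δ)] at h4
          have h5 : 0 ≤ δ * |G j| := by positivity
          linarith
      have := mul_le_mul_of_nonneg_left hkey hwj
      linarith
    calc ∑ j ∈ S, w j * h j ≤ ∑ j ∈ S, (64 * (δ * (w j * |G j|)) + 1024 * (w j * (y j - δ) ^ 2)) :=
          Finset.sum_le_sum hj
      _ = 64 * (δ * ∑ j ∈ S, w j * |G j|) + 1024 * ∑ j ∈ S, w j * (y j - δ) ^ 2 := by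
          rw [Finset.sum_add_distrib, ← Finset.mul_sum, ← Finset.mul_sum, ← Finset.mul_sum]
      _ ≤ 64 * (192 * m) + 1024 * m := by linarith
      _ = 13312 * m := by ring
  · nlinarith

variable {K : Set E2}

lemma Param.h_le (p : Param K) (s t : ℝ) :
    -(inner ℝ (p.N s) (p.Φ t - p.Φ s) : ℝ) ≤ ‖p.N t - p.N s‖ * ‖p.Φ t - p.Φ s‖ := by
  have h1 := p.supp t (p.Φ s) (p.mem s)
  have h2 := real_inner_le_norm (p.N t - p.N s) (p.Φ t - p.Φ s)
  have e : -(inner ℝ (p.N s) (p.Φ t - p.Φ s) : ℝ)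
      = inner ℝ (p.N t - p.N s) (p.Φ t - p.Φ s) + inner ℝ (p.N t) (p.Φ s - p.Φ t) := by
    simp only [inner_sub_left, inner_sub_right]; ring
  linarith

lemma Param.h_nonneg (p : Param K) (s t : ℝ) :
    0 ≤ -(inner ℝ (p.N s) (p.Φ t - p.Φ s) : ℝ) := by
  have := p.supp s (p.Φ t) (p.mem t)
  linarith

lemma Param.h_sq (p : Param K) (s t : ℝ) :
    -(inner ℝ (p.N s) (p.Φ t - p.Φ s) : ℝ) ≤ 256 * |t - s| ^ 2 := by
  refine (p.h_le s t).trans ?_
  have h1 := p.lipN t s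
  have h2 := p.lipΦ t s
  calc _ ≤ (16 * |t - s|) * (16 * |t - s|) := mul_le_mul h1 h2 (norm_nonneg _) (by positivity)
    _ = _ := by ring

lemma Param.g_le (p : Param K) (s t : ℝ) :
    |cross (p.N s) (p.Φ t - p.Φ s)| ≤ 48 * |t - s| := by
  refine (abs_cross_le _ _).trans ?_
  have h1 := p.le_three s
  have h2 := p.lipΦ t s
  calc _ ≤ 3 * (16 * |t - s|) := mul_le_mul h1 h2 (norm_nonneg _) (by positivity)
    _ = _ := by ring

lemma Param.h_near (p : Param K) (s t : ℝ) (hst : 32 * |t - s| ≤ 1) :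
    -(inner ℝ (p.N s) (p.Φ t - p.Φ s) : ℝ) ≤ 32 * |t - s| * |cross (p.N s) (p.Φ t - p.Φ s)| := by
  have h0 := p.h_nonneg s t
  have h1 := p.h_le s t
  have h2 := p.lipN t s
  have h3 := norm_mul_le (p.N s) (p.Φ t - p.Φ s)
  have h4 := p.one_le s
  have h5 := norm_nonneg (p.Φ t - p.Φ s)
  have h6 : ‖p.Φ t - p.Φ s‖ ≤ -(inner ℝ (p.N s) (p.Φ t - p.Φ s) : ℝ)
      + |cross (p.N s) (p.Φ t - p.Φ s)| := by
    rw [abs_of_nonpos (by linarith : (inner ℝ (p.N s) (p.Φ t - p.Φ s) : ℝ) ≤ 0)] at h3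
    nlinarith
  have h7 : -(inner ℝ (p.N s) (p.Φ t - p.Φ s) : ℝ) ≤ (16 * |t - s|) *
      (-(inner ℝ (p.N s) (p.Φ t - p.Φ s) : ℝ) + |cross (p.N s) (p.Φ t - p.Φ s)|) :=
    h1.trans (mul_le_mul h2 h6 h5 (by positivity))
  have h8 : (16 * |t - s|) * (-(inner ℝ (p.N s) (p.Φ t - p.Φ s) : ℝ))
      ≤ (1 / 2) * (-(inner ℝ (p.N s) (p.Φ t - p.Φ s) : ℝ)) :=
    mul_le_mul_of_nonneg_right (by linarith) h0
  linarith

/-- the smoothed curve -/
noncomputable def Gam (Φ : ℝ → E2) (n : ℕ) (s : ℝ) : E2 :=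
  ∑ j ∈ Finset.range (n + 2), (wpoly n j).eval s • Φ (tnode n j)

lemma Gam_inner (Φ : ℝ → E2) (n : ℕ) {s : ℝ} (hs : s ∈ Icc (-1 : ℝ) 1) (N q : E2) :
    (inner ℝ N (Gam Φ n s - q) : ℝ)
      = ∑ j ∈ Finset.range (n + 2), (wpoly n j).eval s * inner ℝ N (Φ (tnode n j) - q) := by
  unfold Gam
  rw [inner_sub_right, inner_sum]
  simp only [inner_smul_right, inner_sub_right, mul_sub]
  rw [Finset.sum_sub_distrib, ← Finset.sum_mul, wpoly_sum n hs, one_mul]

lemma cross_sub (a b c : E2) : cross a (b - c) = cross a b - cross a c := by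
  simp only [cross, PiLp.sub_apply]; ring

lemma cross_smul (a b : E2) (r : ℝ) : cross a (r • b) = r * cross a b := by
  simp only [cross, PiLp.smul_apply, smul_eq_mul]; ring

lemma cross_sum {ι : Type*} (S : Finset ι) (a : E2) (f : ι → E2) :
    cross a (∑ j ∈ S, f j) = ∑ j ∈ S, cross a (f j) := by
  classical
  induction S using Finset.induction_on with
  | empty => simp [cross]
  | insert i S hi ih =>
    rw [Finset.sum_insert hi, Finset.sum_insert hi, ← ih]
    simp only [cross, PiLp.add_apply]; ring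

lemma Gam_cross (Φ : ℝ → E2) (n : ℕ) {s : ℝ} (hs : s ∈ Icc (-1 : ℝ) 1) (N q : E2) :
    cross N (Gam Φ n s - q)
      = ∑ j ∈ Finset.range (n + 2), (wpoly n j).eval s * cross N (Φ (tnode n j) - q) := by
  unfold Gam
  rw [cross_sub, cross_sum]
  simp only [cross_smul, cross_sub, mul_sub]
  rw [Finset.sum_sub_distrib, ← Finset.sum_mul, wpoly_sum n hs, one_mul]

lemma Gam_near (hK : IsCompact K) (hc : Convex ℝ K) (p : Param K) (n : ℕ) {s : ℝ}
    (hs : s ∈ Icc (-1 : ℝ) 1) :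
    ∃ q ∈ frontier K, ‖Gam p.Φ n s - q‖ ≤ 771 * (10 / ((n : ℝ) + 2) ^ 2) := by
  set m : ℝ := 10 / ((n : ℝ) + 2) ^ 2 with hm
  have hmpos : 0 < m := by positivity
  have hmom : ∑ j ∈ Finset.range (n + 2), (wpoly n j).eval s * (tnode n j - s) ^ 2 ≤ m :=
    (wpoly_moment n hs).trans (moment_bound n)
  have hmem : Gam p.Φ n s ∈ K := by
    apply hc.sum_mem
    · intro j _; exact wpoly_nonneg n j hs
    · exact wpoly_sum n hs
    · intro j _; exact p.mem _
  have hin : -(inner ℝ (p.N s) (Gam p.Φ n s - p.Φ s) : ℝ) ≤ 256 * m := by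
    rw [Gam_inner p.Φ n hs, ← Finset.sum_neg_distrib]
    calc ∑ j ∈ Finset.range (n + 2), -((wpoly n j).eval s * inner ℝ (p.N s) (p.Φ (tnode n j) - p.Φ s))
        ≤ ∑ j ∈ Finset.range (n + 2), 256 * ((wpoly n j).eval s * (tnode n j - s) ^ 2) := by
          apply Finset.sum_le_sum
          intro j _
          have h1 := p.h_sq s (tnode n j)
          rw [sq_abs] at h1
          have := mul_le_mul_of_nonneg_left h1 (wpoly_nonneg n j hs)
          linarith
      _ = 256 * ∑ j ∈ Finset.range (n + 2), (wpoly n j).eval s * (tnode n j - s) ^ 2 := by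
          rw [Finset.mul_sum]
      _ ≤ 256 * m := by linarith
  set b := Gam p.Φ n s + (257 * m) • p.N s with hb
  have hbK : b ∉ K := by
    intro hbK
    have h1 := p.supp s b hbK
    have e : b - p.Φ s = (Gam p.Φ n s - p.Φ s) + (257 * m) • p.N s := by rw [hb]; abel
    rw [e, inner_add_right, inner_smul_right, real_inner_self_eq_norm_sq] at h1
    have h2 := p.one_le s
    nlinarith [sq_nonneg (‖p.N s‖ - 1)]
  obtain ⟨t, ht, hfr⟩ := exists_frontier hK.isClosed hmem hbK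
  refine ⟨_, hfr, ?_⟩
  have e : Gam p.Φ n s - (Gam p.Φ n s + t • (b - Gam p.Φ n s)) = -(t • ((257 * m) • p.N s)) := by
    rw [hb]; simp
  rw [e, norm_neg, norm_smul, norm_smul, Real.norm_of_nonneg ht.1, Real.norm_of_nonneg (by positivity)]
  have h2 := p.le_three s
  have h3 : t * (257 * m * ‖p.N s‖) ≤ 1 * (257 * m * 3) := by
    apply mul_le_mul ht.2 _ (by positivity) (by norm_num)
    exact mul_le_mul_of_nonneg_left h2 (by positivity)
  linarith

lemma Gam_cover (p : Param K) (n : ℕ) {q : E2} (hq : q ∈ frontier K) :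
    ∃ s ∈ Icc (-1 : ℝ) 1, ‖Gam p.Φ n s - q‖ ≤ 19456 * (10 / ((n : ℝ) + 2) ^ 2) := by
  set m : ℝ := 10 / ((n : ℝ) + 2) ^ 2 with hm
  have hmpos : 0 < m := by positivity
  obtain ⟨s₀, hs₀, rfl⟩ := p.surj q hq
  set F : ℝ → ℝ := fun s => ∑ j ∈ Finset.range (n + 2), (wpoly n j).eval s *
    cross (p.N s₀) (p.Φ (tnode n j) - p.Φ s₀) with hF
  have hFc : Continuous F := by
    rw [hF]
    apply continuous_finsetSum
    intro j _
    exact (wpoly n j).continuous.mul continuous_const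
  have hmom : ∀ s ∈ Icc (-1 : ℝ) 1,
      ∑ j ∈ Finset.range (n + 2), (wpoly n j).eval s * (tnode n j - s) ^ 2 ≤ m :=
    fun s hs => (wpoly_moment n hs).trans (moment_bound n)
  -- conclusion from bounds
  have fin : ∀ s ∈ Icc (-1 : ℝ) 1, |F s| ≤ 6144 * m →
      ∑ j ∈ Finset.range (n + 2), (wpoly n j).eval s *
        (-(inner ℝ (p.N s₀) (p.Φ (tnode n j) - p.Φ s₀) : ℝ)) ≤ 13312 * m →
      ‖Gam p.Φ n s - p.Φ s₀‖ ≤ 19456 * m := by
    intro s hs h1 h2
    have h3 := norm_mul_le (p.N s₀) (Gam p.Φ n s - p.Φ s₀)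
    rw [Gam_cross p.Φ n hs] at h3
    have h4 : |(inner ℝ (p.N s₀) (Gam p.Φ n s - p.Φ s₀) : ℝ)| ≤ 13312 * m := by
      rw [Gam_inner p.Φ n hs, abs_of_nonpos]
      · rw [← Finset.sum_neg_distrib]
        refine le_trans (le_of_eq ?_) h2
        refine Finset.sum_congr rfl fun j _ => by ring
      · apply Finset.sum_nonpos
        intro j _
        have := p.h_nonneg s₀ (tnode n j)
        have := wpoly_nonneg n j hs
        nlinarith
    have h5 := p.one_le s₀
    have h6 := norm_nonneg (Gam p.Φ n s - p.Φ s₀)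
    have h7 : |∑ j ∈ Finset.range (n + 2), (wpoly n j).eval s *
      cross (p.N s₀) (p.Φ (tnode n j) - p.Φ s₀)| ≤ 6144 * m := h1
    nlinarith
  by_cases hsg : F s₀ ≤ 0
  · -- move to the right
    have hex : ∃ δ, 0 ≤ δ ∧ 64 * δ ≤ 1 ∧ F (s₀ + δ) ≤ 0 ∧ (F (s₀ + δ) = 0 ∨ 64 * δ = 1) := by
      by_cases h1 : 0 ≤ F (s₀ + 1 / 64)
      · have hc1 : ContinuousOn (fun δ => F (s₀ + δ)) (Icc 0 (1 / 64)) := by
          apply Continuous.continuousOn; fun_prop
        obtain ⟨δ, hδ, h0⟩ := intermediate_value_Icc (by norm_num) hc1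
          (show (0 : ℝ) ∈ Icc (F (s₀ + 0)) (F (s₀ + 1 / 64)) by
            rw [add_zero]; exact ⟨hsg, h1⟩)
        exact ⟨δ, hδ.1, by linarith [hδ.2], h0.le, Or.inl h0⟩
      · exact ⟨1 / 64, by norm_num, by norm_num, (not_le.1 h1).le, Or.inr (by norm_num)⟩
    obtain ⟨δ, hδ0, hδ1, hFδ, hor⟩ := hex
    have hsm : s₀ + δ ∈ Icc (-1 : ℝ) 1 := ⟨by linarith [hs₀.1], by linarith [hs₀.2]⟩
    have key := ptwise (Finset.range (n + 2)) (fun j => (wpoly n j).eval (s₀ + δ))
      (fun j => tnode n j - s₀) (fun j => cross (p.N s₀) (p.Φ (tnode n j) - p.Φ s₀))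
      (fun j => -(inner ℝ (p.N s₀) (p.Φ (tnode n j) - p.Φ s₀) : ℝ)) δ m hδ0 hδ1
      (fun j _ => wpoly_nonneg n j hsm)
      (by
        refine le_trans (le_of_eq ?_) (hmom _ hsm)
        refine Finset.sum_congr rfl fun j _ => ?_
        congr 2; ring)
      (fun j _ => p.g_le s₀ _)
      (fun j _ h1 h2 => p.sign_pos s₀ _ (by linarith) h2)
      (fun j _ h1 => p.h_near s₀ _ h1)
      (fun j _ => p.h_sq s₀ _) hFδ
    refine ⟨s₀ + δ, hsm, fin _ hsm ?_ key.1⟩
    rcases hor with h | h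
    · rw [h, abs_zero]; positivity
    · have h2 := key.2
      have h3 : δ = 1 / 64 := by linarith
      rw [h3] at h2
      have h4 : |F (s₀ + δ)| = |∑ j ∈ Finset.range (n + 2), (wpoly n j).eval (s₀ + δ) *
        cross (p.N s₀) (p.Φ (tnode n j) - p.Φ s₀)| := rfl
      rw [h4, h3]
      linarith
  · -- move to the left
    push Not at hsg
    have hex : ∃ δ, 0 ≤ δ ∧ 64 * δ ≤ 1 ∧ 0 ≤ F (s₀ - δ) ∧ (F (s₀ - δ) = 0 ∨ 64 * δ = 1) := by
      by_cases h1 : F (s₀ - 1 / 64) ≤ 0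
      · have hc1 : ContinuousOn (fun δ => F (s₀ - δ)) (Icc 0 (1 / 64)) := by
          apply Continuous.continuousOn; fun_prop
        obtain ⟨δ, hδ, h0⟩ := intermediate_value_Icc' (by norm_num) hc1
          (show (0 : ℝ) ∈ Icc (F (s₀ - 1 / 64)) (F (s₀ - 0)) by
            rw [sub_zero]; exact ⟨h1, hsg.le⟩)
        exact ⟨δ, hδ.1, by linarith [hδ.2], h0.ge, Or.inl h0⟩
      · exact ⟨1 / 64, by norm_num, by norm_num, (not_le.1 h1).le, Or.inr (by norm_num)⟩
    obtain ⟨δ, hδ0, hδ1, hFδ, hor⟩ := hex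
    have hsm : s₀ - δ ∈ Icc (-1 : ℝ) 1 := ⟨by linarith [hs₀.1], by linarith [hs₀.2]⟩
    have hFδ' : ∑ j ∈ Finset.range (n + 2), (wpoly n j).eval (s₀ - δ) *
        (-cross (p.N s₀) (p.Φ (tnode n j) - p.Φ s₀)) ≤ 0 := by
      simp only [mul_neg, Finset.sum_neg_distrib]
      have : 0 ≤ F (s₀ - δ) := hFδ
      simp only [hF] at this
      linarith
    have key := ptwise (Finset.range (n + 2)) (fun j => (wpoly n j).eval (s₀ - δ))
      (fun j => -(tnode n j - s₀)) (fun j => -cross (p.N s₀) (p.Φ (tnode n j) - p.Φ s₀))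
      (fun j => -(inner ℝ (p.N s₀) (p.Φ (tnode n j) - p.Φ s₀) : ℝ)) δ m hδ0 hδ1
      (fun j _ => wpoly_nonneg n j hsm)
      (by
        refine le_trans (le_of_eq ?_) (hmom _ hsm)
        refine Finset.sum_congr rfl fun j _ => ?_
        ring)
      (fun j _ => by rw [abs_neg, abs_neg]; exact p.g_le s₀ _)
      (fun j _ h1 h2 => by
        have := p.sign_neg s₀ (tnode n j) (by linarith) (by linarith)
        linarith)
      (fun j _ h1 => by
        rw [abs_neg] at h1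
        rw [abs_neg, abs_neg]
        exact p.h_near s₀ _ h1)
      (fun j _ => by rw [abs_neg]; exact p.h_sq s₀ _) hFδ'
    refine ⟨s₀ - δ, hsm, fin _ hsm ?_ key.1⟩
    rcases hor with h | h
    · rw [h, abs_zero]; positivity
    · have h2 := key.2
      have h3 : δ = 1 / 64 := by linarith
      have h4 : |F (s₀ - δ)| = |∑ j ∈ Finset.range (n + 2), (wpoly n j).eval (s₀ - δ) *
        (-cross (p.N s₀) (p.Φ (tnode n j) - p.Φ s₀))| := by
        simp only [hF, mul_neg, Finset.sum_neg_distrib, abs_neg]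
      rw [h4]
      simp only [h3] at h2 ⊢
      linarith

/-- the upper bound for sets in a unit ball, with parameter interval `[0,1]` -/
theorem upper {K : Set E2} (hK : IsCompact K) (hc : Convex ℝ K) (hint : (interior K).Nonempty)
    (x₀ : E2) (hx : ∀ y ∈ K, ‖y - x₀‖ ≤ 1) (n : ℕ) :
    ∃ P Q : Polynomial ℝ, P.natDegree ≤ n ∧ Q.natDegree ≤ n ∧
      (∀ t ∈ Icc (0 : ℝ) 1, ∃ q ∈ frontier K,
        ‖(!₂[P.eval t, Q.eval t] : E2) - q‖ ≤ 194560 / ((n : ℝ) + 2) ^ 2) ∧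
      (∀ q ∈ frontier K, ∃ t ∈ Icc (0 : ℝ) 1,
        ‖(!₂[P.eval t, Q.eval t] : E2) - q‖ ≤ 194560 / ((n : ℝ) + 2) ^ 2) := by
  obtain ⟨p⟩ := exists_param hK hc hint x₀ hx
  set A : Polynomial ℝ := Polynomial.C 2 * Polynomial.X - Polynomial.C 1 with hA
  have hAdeg : A.natDegree ≤ 1 := by
    rw [hA]; compute_degree
  have hAe : ∀ t, A.eval t = 2 * t - 1 := by intro t; simp [hA]
  set P : Fin 2 → Polynomial ℝ := fun i =>
    ∑ j ∈ Finset.range (n + 2), Polynomial.C (p.Φ (tnode n j) i) * wpoly n j with hP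
  have hPdeg : ∀ i, (P i).natDegree ≤ n := by
    intro i
    apply Polynomial.natDegree_sum_le_of_forall_le
    intro j _
    exact (Polynomial.natDegree_C_mul_le _ _).trans (wpoly_natDegree n j)
  have hPe : ∀ i s, (P i).eval s = Gam p.Φ n s i := by
    intro i s
    simp only [hP, Gam, Polynomial.eval_finsetSum, Polynomial.eval_mul, Polynomial.eval_C]
    rw [WithLp.ofLp_sum, Finset.sum_apply]
    refine Finset.sum_congr rfl fun j _ => ?_
    simp [mul_comm]
  have hG : ∀ t, (!₂[((P 0).comp A).eval t, ((P 1).comp A).eval t] : E2) = Gam p.Φ n (2 * t - 1) := by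
    intro t
    ext i
    fin_cases i
    · simp [Polynomial.eval_comp, hAe, hPe]
    · simp [Polynomial.eval_comp, hAe, hPe]
  refine ⟨(P 0).comp A, (P 1).comp A, ?_, ?_, ?_, ?_⟩
  · refine Polynomial.natDegree_comp_le.trans ?_
    nlinarith [hPdeg 0, Nat.zero_le (P 0).natDegree]
  · refine Polynomial.natDegree_comp_le.trans ?_
    nlinarith [hPdeg 1, Nat.zero_le (P 1).natDegree]
  · intro t ht
    obtain ⟨q, hq, h⟩ := Gam_near hK hc p n (s := 2 * t - 1) ⟨by linarith [ht.1], by linarith [ht.2]⟩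
    refine ⟨q, hq, ?_⟩
    rw [hG]
    refine h.trans ?_
    rw [← mul_div_assoc]
    apply div_le_div_of_nonneg_right _ (by positivity)
    norm_num
  · intro q hq
    obtain ⟨s, hs, h⟩ := Gam_cover p n hq
    refine ⟨(s + 1) / 2, ⟨by linarith [hs.1], by linarith [hs.2]⟩, ?_⟩
    rw [hG]
    have : 2 * ((s + 1) / 2) - 1 = s := by ring
    rw [this]
    refine h.trans ?_
    rw [← mul_div_assoc]
    apply div_le_div_of_nonneg_right _ (by positivity)
    norm_num

end Pool.Agent.Lib.MP_24cacf_an
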